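import Pool.Agent.Work.MP_4eb3f9_an.Interface

/-!
# Calculus of the partial derivatives `pd k`
-/

open Complex MeasureTheory Filter Topology
open scoped ContDiff

namespace CMA

section basic

variable {f g : ℂ × ℂ → ℝ} {p : ℂ × ℂ}

lemma cd_pd {f : ℂ × ℂ → ℝ} (hf : ContDiff ℝ ∞ f) (k : Fin 4) : ContDiff ℝ ∞ (pd k f) := by
  unfold pd
  exact (hf.fderiv_right (m := ∞) (by simp)).clm_apply contDiff_const

lemma cdAt_pd {f : ℂ × ℂ → ℝ} {p : ℂ × ℂ} (hf : ContDiffAt ℝ ∞ f p) (k : Fin 4) :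
    ContDiffAt ℝ ∞ (pd k f) p := by
  unfold pd
  exact (hf.fderiv_right (m := ∞) (by simp)).clm_apply contDiffAt_const

lemma cd_diff {f : ℂ × ℂ → ℝ} (hf : ContDiff ℝ ∞ f) : Differentiable ℝ f :=
  hf.differentiable (by simp)

lemma cdAt_diff {f : ℂ × ℂ → ℝ} {p : ℂ × ℂ} (hf : ContDiffAt ℝ ∞ f p) : DifferentiableAt ℝ f p :=
  hf.differentiableAt (by simp)

lemma pd_congr {f g : ℂ × ℂ → ℝ} {p : ℂ × ℂ} (h : f =ᶠ[𝓝 p] g) (k : Fin 4) :
    pd k f =ᶠ[𝓝 p] pd k g := by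
  filter_upwards [h.fderiv (𝕜 := ℝ)] with q hq
  simp [pd, hq]

lemma pd_pd_congr {f g : ℂ × ℂ → ℝ} {p : ℂ × ℂ} (h : f =ᶠ[𝓝 p] g) (j k : Fin 4) :
    pd j (pd k f) p = pd j (pd k g) p :=
  (pd_congr (pd_congr h k) j).eq_of_nhds

lemma pd_comm_at {f : ℂ × ℂ → ℝ} {p : ℂ × ℂ} (hf : ContDiffAt ℝ ∞ f p) (j k : Fin 4) :
    pd j (pd k f) p = pd k (pd j f) p := by
  have hd : DifferentiableAt ℝ (fderiv ℝ f) p :=
    (hf.fderiv_right (m := ∞) (by simp)).differentiableAt (by simp)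
  have key : ∀ j k : Fin 4, pd j (pd k f) p = fderiv ℝ (fderiv ℝ f) p (dir j) (dir k) := by
    intro j k
    have : pd k f = fun q => fderiv ℝ f q (dir k) := rfl
    rw [pd, this, fderiv_clm_apply hd (differentiableAt_const _)]
    simp
  rw [key, key]
  have hs : IsSymmSndFDerivAt ℝ f p := hf.isSymmSndFDerivAt (by
    simp only [minSmoothness_of_isRCLikeNormedField]
    exact ENat.LEInfty.out)
  exact hs _ _

lemma pd_comm (hf : ContDiff ℝ ∞ f) (j k : Fin 4) : pd j (pd k f) = pd k (pd j f) := by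
  funext p
  exact pd_comm_at hf.contDiffAt j k

lemma pd_add_at (hf : DifferentiableAt ℝ f p) (hg : DifferentiableAt ℝ g p) (k : Fin 4) :
    pd k (fun q => f q + g q) p = pd k f p + pd k g p := by
  unfold pd
  rw [fderiv_fun_add hf hg]
  rfl

lemma pd_sub_at (hf : DifferentiableAt ℝ f p) (hg : DifferentiableAt ℝ g p) (k : Fin 4) :
    pd k (fun q => f q - g q) p = pd k f p - pd k g p := by
  unfold pd
  rw [fderiv_fun_sub hf hg]
  rfl

lemma pd_neg (k : Fin 4) : pd k (fun q => - f q) p = - pd k f p := by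
  unfold pd
  rw [fderiv_fun_neg]
  rfl

lemma pd_const (a : ℝ) (k : Fin 4) : pd k (fun _ => a) p = 0 := by
  unfold pd
  simp

lemma pd_mul_at (hf : DifferentiableAt ℝ f p) (hg : DifferentiableAt ℝ g p) (k : Fin 4) :
    pd k (fun q => f q * g q) p = f p * pd k g p + g p * pd k f p := by
  unfold pd
  rw [fderiv_fun_mul hf hg]
  simp

lemma pd_const_mul_at (a : ℝ) (hf : DifferentiableAt ℝ f p) (k : Fin 4) :
    pd k (fun q => a * f q) p = a * pd k f p := by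
  unfold pd
  rw [fderiv_const_mul hf]
  simp

lemma pd_comp_at {c : ℝ → ℝ} (hc : DifferentiableAt ℝ c (f p)) (hf : DifferentiableAt ℝ f p)
    (k : Fin 4) : pd k (fun q => c (f q)) p = deriv c (f p) * pd k f p := by
  unfold pd
  have := (hc.hasDerivAt.comp_hasFDerivAt p hf.hasFDerivAt).fderiv
  have h2 : fderiv ℝ (fun q => c (f q)) p = deriv c (f p) • fderiv ℝ f p := this
  rw [h2]
  simp

lemma pd_add (hf : ContDiff ℝ ∞ f) (hg : ContDiff ℝ ∞ g) (k : Fin 4) :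
    pd k (fun q => f q + g q) = fun q => pd k f q + pd k g q := by
  funext q; exact pd_add_at (cd_diff hf q) (cd_diff hg q) k

lemma pd_sub (hf : ContDiff ℝ ∞ f) (hg : ContDiff ℝ ∞ g) (k : Fin 4) :
    pd k (fun q => f q - g q) = fun q => pd k f q - pd k g q := by
  funext q; exact pd_sub_at (cd_diff hf q) (cd_diff hg q) k

lemma pd_neg' (k : Fin 4) : pd k (fun q => - f q) = fun q => - pd k f q := by
  funext q; exact pd_neg k

lemma pd_mul (hf : ContDiff ℝ ∞ f) (hg : ContDiff ℝ ∞ g) (k : Fin 4) :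
    pd k (fun q => f q * g q) = fun q => f q * pd k g q + g q * pd k f q := by
  funext q; exact pd_mul_at (cd_diff hf q) (cd_diff hg q) k

lemma pd_const_mul (a : ℝ) (hf : ContDiff ℝ ∞ f) (k : Fin 4) :
    pd k (fun q => a * f q) = fun q => a * pd k f q := by
  funext q; exact pd_const_mul_at a (cd_diff hf q) k

lemma pd_comp {c : ℝ → ℝ} (hc : ContDiff ℝ ∞ c) (hf : ContDiff ℝ ∞ f) (k : Fin 4) :
    pd k (fun q => c (f q)) = fun q => deriv c (f q) * pd k f q := by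
  funext q
  exact pd_comp_at (hc.differentiable (by simp) _) (cd_diff hf q) k

lemma cd_deriv {c : ℝ → ℝ} (hc : ContDiff ℝ ∞ c) : ContDiff ℝ ∞ (deriv c) := by
  have : ContDiff ℝ (∞ + 1) c := by simpa using hc
  exact (contDiff_succ_iff_deriv.1 this).2.2

/-- Second derivatives of a composition with a function of one variable. -/
lemma pd_pd_comp {c : ℝ → ℝ} (hc : ContDiff ℝ ∞ c) (hf : ContDiff ℝ ∞ f) (j k : Fin 4) :
    pd j (pd k (fun q => c (f q))) p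
      = deriv (deriv c) (f p) * (pd j f p * pd k f p) + deriv c (f p) * pd j (pd k f) p := by
  rw [pd_comp hc hf k, pd_mul_at (f := fun q => deriv c (f q))]
  · rw [pd_comp_at]
    · ring
    · exact (cd_deriv hc).differentiable (by simp) _
    · exact cd_diff hf p
  · exact ((cd_deriv hc).comp hf).differentiable (by simp) p
  · exact cd_diff (cd_pd hf k) p

lemma hcs_pd (hf : HasCompactSupport f) (k : Fin 4) : HasCompactSupport (pd k f) := by
  have h := hf.fderiv (𝕜 := ℝ)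
  refine h.mono' ?_
  intro q hq
  refine subset_tsupport _ ?_
  intro h0
  exact hq (by simp [pd, h0])

lemma pd_eq_zero_of_nmem (k : Fin 4) (hp : p ∉ tsupport f) : pd k f p = 0 := by
  have : f =ᶠ[𝓝 p] fun _ => (0 : ℝ) := by
    have h := (isClosed_tsupport f).isOpen_compl.mem_nhds hp
    filter_upwards [h] with q hq
    exact image_eq_zero_of_notMem_tsupport hq
  rw [(pd_congr this k).eq_of_nhds, pd_const]

end basic

/-! ### Integration by parts -/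

instance instHaarC2 : (volume : Measure (ℂ × ℂ)).IsAddHaarMeasure := by
  rw [Measure.volume_eq_prod]; infer_instance

lemma integrable_of_cs {F : ℂ × ℂ → ℝ} (hc : Continuous F) (hs : HasCompactSupport F) :
    Integrable F := hc.integrable_of_hasCompactSupport hs

lemma ibp {f g : ℂ × ℂ → ℝ} (hf : ContDiff ℝ ∞ f) (hg : ContDiff ℝ ∞ g)
    (hs : HasCompactSupport f) (k : Fin 4) :
    ∫ p, f p * pd k g p = - ∫ p, pd k f p * g p := by
  have hf' := cd_pd hf k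
  have hg' := cd_pd hg k
  exact integral_mul_fderiv_eq_neg_fderiv_mul_of_integrable (v := dir k)
    (integrable_of_cs (hf'.continuous.mul hg.continuous) ((hcs_pd hs k).mul_right))
    (integrable_of_cs (hf.continuous.mul hg'.continuous) (hs.mul_right))
    (integrable_of_cs (hf.continuous.mul hg.continuous) (hs.mul_right))
    (fun x _ => cd_diff hf x) (fun x _ => cd_diff hg x)

lemma ibp' {f g : ℂ × ℂ → ℝ} (hf : ContDiff ℝ ∞ f) (hg : ContDiff ℝ ∞ g)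
    (hs : HasCompactSupport g) (k : Fin 4) :
    ∫ p, f p * pd k g p = - ∫ p, pd k f p * g p := by
  have h := ibp hg hf hs k
  have e1 : ∫ p, f p * pd k g p = ∫ p, pd k g p * f p := by simp_rw [mul_comm]
  have e2 : ∫ p, pd k f p * g p = ∫ p, g p * pd k f p := by simp_rw [mul_comm]
  rw [e1, e2, h, neg_neg]

/-- The integral of a derivative of a compactly supported function vanishes. -/
lemma integral_pd_eq_zero {f : ℂ × ℂ → ℝ} (hf : ContDiff ℝ ∞ f) (hs : HasCompactSupport f)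
    (k : Fin 4) : ∫ p, pd k f p = 0 := by
  have h := ibp' (f := fun _ => (1 : ℝ)) contDiff_const hf hs k
  simp only [one_mul] at h
  rw [h]
  have : ∀ p, pd k (fun _ : ℂ × ℂ => (1 : ℝ)) p = 0 := fun p => pd_const 1 k
  simp [this]

/-! ### Smoothness of the second order expressions -/

lemma cd_hzz {f : ℂ × ℂ → ℝ} (hf : ContDiff ℝ ∞ f) : ContDiff ℝ ∞ (hzz f) := by
  unfold hzz
  exact ((cd_pd (cd_pd hf 0) 0).add (cd_pd (cd_pd hf 1) 1)).div_const 4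

lemma cd_hww {f : ℂ × ℂ → ℝ} (hf : ContDiff ℝ ∞ f) : ContDiff ℝ ∞ (hww f) := by
  unfold hww
  exact ((cd_pd (cd_pd hf 2) 2).add (cd_pd (cd_pd hf 3) 3)).div_const 4

lemma cd_hP {f : ℂ × ℂ → ℝ} (hf : ContDiff ℝ ∞ f) : ContDiff ℝ ∞ (hP f) := by
  unfold hP
  exact ((cd_pd (cd_pd hf 2) 0).add (cd_pd (cd_pd hf 3) 1)).div_const 4

lemma cd_hQ {f : ℂ × ℂ → ℝ} (hf : ContDiff ℝ ∞ f) : ContDiff ℝ ∞ (hQ f) := by
  unfold hQ
  exact ((cd_pd (cd_pd hf 3) 0).sub (cd_pd (cd_pd hf 2) 1)).div_const 4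

lemma cd_dH {f : ℂ × ℂ → ℝ} (hf : ContDiff ℝ ∞ f) : ContDiff ℝ ∞ (dH f) := by
  unfold dH
  exact (((cd_hzz hf).mul (cd_hww hf)).sub ((cd_hP hf).pow 2)).sub ((cd_hQ hf).pow 2)

lemma cd_mM {f g : ℂ × ℂ → ℝ} (hf : ContDiff ℝ ∞ f) (hg : ContDiff ℝ ∞ g) :
    ContDiff ℝ ∞ (mM f g) := by
  unfold mM
  exact (((cd_hww hf).mul (cd_hzz hg)).add ((cd_hzz hf).mul (cd_hww hg))).sub
    (contDiff_const.mul (((cd_hP hf).mul (cd_hP hg)).add ((cd_hQ hf).mul (cd_hQ hg))))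

lemma cd_gz {f : ℂ × ℂ → ℝ} (hf : ContDiff ℝ ∞ f) : ContDiff ℝ ∞ (gz f) := by
  unfold gz
  exact (((cd_pd hf 0).pow 2).add ((cd_pd hf 1).pow 2)).div_const 4

lemma cd_gw {f : ℂ × ℂ → ℝ} (hf : ContDiff ℝ ∞ f) : ContDiff ℝ ∞ (gw f) := by
  unfold gw
  exact (((cd_pd hf 2).pow 2).add ((cd_pd hf 3).pow 2)).div_const 4

lemma cd_bB {φ α β : ℂ × ℂ → ℝ} (hφ : ContDiff ℝ ∞ φ) (hα : ContDiff ℝ ∞ α)
    (hβ : ContDiff ℝ ∞ β) : ContDiff ℝ ∞ (bB φ α β) := by
  unfold bB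
  have a0 := cd_pd hα 0
  have a1 := cd_pd hα 1
  have a2 := cd_pd hα 2
  have a3 := cd_pd hα 3
  have b0 := cd_pd hβ 0
  have b1 := cd_pd hβ 1
  have b2 := cd_pd hβ 2
  have b3 := cd_pd hβ 3
  have h1 := cd_hww hφ
  have h2 := cd_hzz hφ
  have h3 := cd_hP hφ
  have h4 := cd_hQ hφ
  exact ((((h1.mul ((a0.mul b0).add (a1.mul b1))).add (h2.mul ((a2.mul b2).add (a3.mul b3)))).sub
    (h3.mul ((((a0.mul b2).add (a2.mul b0)).add (a1.mul b3)).add (a3.mul b1)))).sub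
    (h4.mul ((((a0.mul b3).add (a3.mul b0)).sub (a1.mul b2)).sub (a2.mul b1)))).div_const 4

lemma hzz_congr {f g : ℂ × ℂ → ℝ} {p : ℂ × ℂ} (h : f =ᶠ[𝓝 p] g) : hzz f p = hzz g p := by
  simp only [hzz, pd_pd_congr h]

lemma hww_congr {f g : ℂ × ℂ → ℝ} {p : ℂ × ℂ} (h : f =ᶠ[𝓝 p] g) : hww f p = hww g p := by
  simp only [hww, pd_pd_congr h]

lemma hP_congr {f g : ℂ × ℂ → ℝ} {p : ℂ × ℂ} (h : f =ᶠ[𝓝 p] g) : hP f p = hP g p := by
  simp only [hP, pd_pd_congr h]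

lemma hQ_congr {f g : ℂ × ℂ → ℝ} {p : ℂ × ℂ} (h : f =ᶠ[𝓝 p] g) : hQ f p = hQ g p := by
  simp only [hQ, pd_pd_congr h]

lemma dH_congr {f g : ℂ × ℂ → ℝ} {p : ℂ × ℂ} (h : f =ᶠ[𝓝 p] g) : dH f p = dH g p := by
  simp only [dH, hzz_congr h, hww_congr h, hP_congr h, hQ_congr h]

lemma LPos_congr {f g : ℂ × ℂ → ℝ} {p : ℂ × ℂ} (h : f =ᶠ[𝓝 p] g) : LPos f p ↔ LPos g p := by
  simp only [LPos, hzz_congr h, hww_congr h, dH_congr h]

lemma mM_self (f : ℂ × ℂ → ℝ) (p : ℂ × ℂ) : mM f f p = 2 * dH f p := by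
  unfold mM dH; ring

lemma mM_symm (f g : ℂ × ℂ → ℝ) (p : ℂ × ℂ) : mM f g p = mM g f p := by
  unfold mM; ring

lemma bB_symm (φ α β : ℂ × ℂ → ℝ) (p : ℂ × ℂ) : bB φ α β p = bB φ β α p := by
  unfold bB; ring

lemma gz_nonneg (f : ℂ × ℂ → ℝ) (p : ℂ × ℂ) : 0 ≤ gz f p := by unfold gz; positivity

lemma gw_nonneg (f : ℂ × ℂ → ℝ) (p : ℂ × ℂ) : 0 ≤ gw f p := by unfold gw; positivity

end CMA
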