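import Mathlib

/-!
# MP_4eb3f9_an: definitions used in the statement

`Bidisc` is the unit bidisc of `ℂ²`.  All functions are functions on `ℂ × ℂ`; only
their values on the bidisc matter.  `u : ℂ × ℂ → EReal` codes a function with values
in `[-∞, 0]`.
-/

open Complex MeasureTheory Filter Topology
open scoped ContDiff ComplexOrder

namespace CMA

/-- The open unit bidisc. -/
def Bidisc : Set (ℂ × ℂ) := {p | ‖p.1‖ < 1 ∧ ‖p.2‖ < 1}

/-- The open polydisc of radius `r` about the origin. -/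
def Poly (r : ℝ) : Set (ℂ × ℂ) := {p | ‖p.1‖ < r ∧ ‖p.2‖ < r}

/-- The four real coordinate directions `∂/∂x, ∂/∂y, ∂/∂ξ, ∂/∂ζ` of `ℂ² ∋ (z, w)`,
`z = x + i y`, `w = ξ + i ζ`. -/
def dir : Fin 4 → ℂ × ℂ := ![(1, 0), (Complex.I, 0), (0, 1), (0, Complex.I)]

/-- The `k`-th real partial derivative of a real function on `ℂ²`. -/
noncomputable def pd (k : Fin 4) (f : ℂ × ℂ → ℝ) : ℂ × ℂ → ℝ := fun p => fderiv ℝ f p (dir k)

/-- `∂²f / ∂z ∂z̄`. -/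
noncomputable def hzz (f : ℂ × ℂ → ℝ) (p : ℂ × ℂ) : ℝ := (pd 0 (pd 0 f) p + pd 1 (pd 1 f) p) / 4

/-- `∂²f / ∂w ∂w̄`. -/
noncomputable def hww (f : ℂ × ℂ → ℝ) (p : ℂ × ℂ) : ℝ := (pd 2 (pd 2 f) p + pd 3 (pd 3 f) p) / 4

/-- The real part of `∂²f / ∂z ∂w̄`. -/
noncomputable def hP (f : ℂ × ℂ → ℝ) (p : ℂ × ℂ) : ℝ := (pd 0 (pd 2 f) p + pd 1 (pd 3 f) p) / 4

/-- The imaginary part of `∂²f / ∂z ∂w̄`. -/
noncomputable def hQ (f : ℂ × ℂ → ℝ) (p : ℂ × ℂ) : ℝ := (pd 0 (pd 3 f) p - pd 1 (pd 2 f) p) / 4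

/-- The complex Hessian matrix `(∂²f / ∂z_j ∂z̄_k)` of a real function on `ℂ²`. -/
noncomputable def cHess (f : ℂ × ℂ → ℝ) (p : ℂ × ℂ) : Matrix (Fin 2) (Fin 2) ℂ :=
  !![(hzz f p : ℂ), (hP f p : ℂ) + (hQ f p : ℂ) * Complex.I;
     (hP f p : ℂ) - (hQ f p : ℂ) * Complex.I, (hww f p : ℂ)]

/-- The density of `(dd^c f)²` with respect to Lebesgue measure for a `C²` function `f`, with
`d^c = (i/4π)(∂̄ - ∂)`: it is `(2/π²) det (∂²f/∂z_j ∂z̄_k)`. -/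
noncomputable def maDensity (f : ℂ × ℂ → ℝ) (p : ℂ × ℂ) : ℝ :=
  2 / Real.pi ^ 2 * (cHess f p).det.re

/-- `u` is a negative plurisubharmonic function on the bidisc: values in `[-∞, 0]`, upper
semicontinuous, not identically `-∞`, and with the sub-mean-value property on all circles
in complex lines whose closed discs lie in the bidisc. -/
structure NegPSH (u : ℂ × ℂ → EReal) : Prop where
  nonpos : ∀ p ∈ Bidisc, u p ≤ 0
  usc : UpperSemicontinuousOn u Bidisc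
  submean : ∀ p v : ℂ × ℂ, (∀ t : ℂ, ‖t‖ ≤ 1 → p + t • v ∈ Bidisc) →
    ∫⁻ s in Set.Ioc (0 : ℝ) (2 * Real.pi), (-u (p + Complex.exp (s * Complex.I) • v)).toENNReal
      ≤ ENNReal.ofReal (2 * Real.pi) * (-u p).toENNReal
  exists_finite : ∃ p ∈ Bidisc, u p ≠ ⊥

/-- `νs` converges to `ν` vaguely on the bidisc. -/
def VagueLim (νs : ℕ → Measure (ℂ × ℂ)) (ν : Measure (ℂ × ℂ)) : Prop :=
  ∀ θ : ℂ × ℂ → ℝ, Continuous θ → HasCompactSupport θ → tsupport θ ⊆ Bidisc →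
    Tendsto (fun j => ∫ p, θ p ∂(νs j)) atTop (𝓝 (∫ p, θ p ∂ν))

/-- `ν` is the Monge-Ampere measure `(dd^c u)²` of the bounded psh function `u` on the bidisc,
in the sense of Bedford and Taylor: there are smooth psh functions `v k` on polydiscs of radii
`ρ k ↑ 1` which decrease to `u`, and the measures `(dd^c (v k))²` converge vaguely to `ν`.
(Such `v k` always exist, and by Bedford-Taylor the limit does not depend on them.) -/
def IsMA (u : ℂ × ℂ → EReal) (ν : Measure (ℂ × ℂ)) : Prop :=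
  ∃ (ρ : ℕ → ℝ) (v : ℕ → ℂ × ℂ → ℝ),
    Monotone ρ ∧ (∀ k, 0 < ρ k ∧ ρ k < 1) ∧ Tendsto ρ atTop (𝓝 1) ∧
    (∀ k, ContDiffOn ℝ ∞ (v k) (Poly (ρ k))) ∧
    (∀ k, ∀ p ∈ Poly (ρ k), (cHess (v k) p).PosSemidef) ∧
    (∀ k, ∀ p ∈ Poly (ρ k), v (k + 1) p ≤ v k p) ∧
    (∀ p ∈ Bidisc, Tendsto (fun k => ((v k p : ℝ) : EReal)) atTop (𝓝 (u p))) ∧
    (∀ θ : ℂ × ℂ → ℝ, Continuous θ → HasCompactSupport θ → tsupport θ ⊆ Bidisc →
      Tendsto (fun k => ∫ p, θ p * maDensity (v k) p) atTop (𝓝 (∫ p, θ p ∂ν)))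

/-- `u ∈ E_0(Ω)` and `(dd^c u)² = ν`: `u` is a bounded negative psh function on the bidisc with
boundary values `0` and finite Monge-Ampere mass. -/
structure InE0 (u : ℂ × ℂ → EReal) (ν : Measure (ℂ × ℂ)) : Prop where
  psh : NegPSH u
  bounded : ∃ C : ℝ, ∀ p ∈ Bidisc, ((-C : ℝ) : EReal) ≤ u p
  boundary : ∀ ε : ℝ, 0 < ε → ∃ r : ℝ, r < 1 ∧
    ∀ p ∈ Bidisc, (r ≤ ‖p.1‖ ∨ r ≤ ‖p.2‖) → ((-ε : ℝ) : EReal) ≤ u p
  isMA : IsMA u ν
  support : ν Bidiscᶜ = 0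
  finite : ν Bidisc < ⊤

/-- `u ∈ F(Ω)` and `(dd^c u)² = μ`: there are `U j ∈ E_0(Ω)` decreasing to `u` on the bidisc with
uniformly bounded Monge-Ampere masses, and `(dd^c (U j))²` converges vaguely to `μ`.
(By Cegrell's theorem the vague limit exists and does not depend on the sequence.) -/
def InFWithMA (u : ℂ × ℂ → EReal) (μ : Measure (ℂ × ℂ)) : Prop :=
  NegPSH u ∧ ∃ (U : ℕ → ℂ × ℂ → EReal) (ν : ℕ → Measure (ℂ × ℂ)),
    (∀ j, InE0 (U j) (ν j)) ∧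
    (∀ j, ∀ p ∈ Bidisc, U (j + 1) p ≤ U j p) ∧
    (∀ p ∈ Bidisc, Tendsto (fun j => U j p) atTop (𝓝 (u p))) ∧
    (∃ C : ℝ, ∀ j, ν j Bidisc ≤ ENNReal.ofReal C) ∧
    VagueLim ν μ

/-- Lebesgue measure of the unit disc times the Dirac mass at `0`. -/
noncomputable def lebDirac : Measure (ℂ × ℂ) :=
  (volume.restrict (Metric.ball (0 : ℂ) 1)).prod (Measure.dirac (0 : ℂ))

end CMA
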