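import Pool.Agent.Work.MP_4eb3f9_an.Defs

/-!
# MP_4eb3f9_an: interface between the blocks

Every block proves one or more of the `Stmt_*` below.  See `BLUEPRINT.md` for the proofs.
-/

open Complex MeasureTheory Filter Topology
open scoped ContDiff ComplexOrder

namespace CMA

/-! ## Forms -/

/-- Determinant of the complex Hessian. -/
noncomputable def dH (f : ℂ × ℂ → ℝ) (p : ℂ × ℂ) : ℝ :=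
  hzz f p * hww f p - hP f p ^ 2 - hQ f p ^ 2

/-- Mixed Monge-Ampere density, `mM f f = 2 dH f`. -/
noncomputable def mM (f g : ℂ × ℂ → ℝ) (p : ℂ × ℂ) : ℝ :=
  hww f p * hzz g p + hzz f p * hww g p - 2 * (hP f p * hP g p + hQ f p * hQ g p)

/-- The form `dα ∧ d^c β ∧ dd^c φ` (real part of `α_w β_w̄ φ_zz̄ + ...`). -/
noncomputable def bB (φ α β : ℂ × ℂ → ℝ) (p : ℂ × ℂ) : ℝ :=
  (hww φ p * (pd 0 α p * pd 0 β p + pd 1 α p * pd 1 β p)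
    + hzz φ p * (pd 2 α p * pd 2 β p + pd 3 α p * pd 3 β p)
    - hP φ p * (pd 0 α p * pd 2 β p + pd 2 α p * pd 0 β p + pd 1 α p * pd 3 β p
        + pd 3 α p * pd 1 β p)
    - hQ φ p * (pd 0 α p * pd 3 β p + pd 3 α p * pd 0 β p - pd 1 α p * pd 2 β p
        - pd 2 α p * pd 1 β p)) / 4

/-- `|∂f/∂z|²`. -/
noncomputable def gz (f : ℂ × ℂ → ℝ) (p : ℂ × ℂ) : ℝ := (pd 0 f p ^ 2 + pd 1 f p ^ 2) / 4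

/-- `|∂f/∂w|²`. -/
noncomputable def gw (f : ℂ × ℂ → ℝ) (p : ℂ × ℂ) : ℝ := (pd 2 f p ^ 2 + pd 3 f p ^ 2) / 4

/-- The complex Hessian at `p` is positive semidefinite. -/
def LPos (f : ℂ × ℂ → ℝ) (p : ℂ × ℂ) : Prop := 0 ≤ hzz f p ∧ 0 ≤ hww f p ∧ 0 ≤ dH f p

/-- Smooth plurisubharmonic functions on `ℂ²`. -/
structure SPsh (f : ℂ × ℂ → ℝ) : Prop where
  smooth : ContDiff ℝ ∞ f
  pos : ∀ p, LPos f p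

/-- A smooth convex version `c` of `x ↦ max x 0`. -/
structure IsCut (δ : ℝ) (c : ℝ → ℝ) : Prop where
  smooth : ContDiff ℝ ∞ c
  zero : ∀ x ≤ 0, c x = 0
  nonneg : ∀ x, 0 ≤ c x
  deriv_nonneg : ∀ x, 0 ≤ deriv c x
  deriv_le : ∀ x, deriv c x ≤ 1
  deriv_one : ∀ x, δ ≤ x → deriv c x = 1
  convex : ∀ x, 0 ≤ deriv (deriv c) x
  le : ∀ x, c x ≤ max x 0
  ge : ∀ x, x - δ ≤ c x

/-- The truncation `η_f = c(-f - 3δ)`. -/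
noncomputable def eta (c : ℝ → ℝ) (δ : ℝ) (f : ℂ × ℂ → ℝ) : ℂ × ℂ → ℝ :=
  fun p => c (-f p - 3 * δ)

/-- `{f ≤ -δ}` is a relatively compact subset of the bidisc. -/
def Lev (δ : ℝ) (f : ℂ × ℂ → ℝ) : Prop :=
  ∃ ρ : ℝ, ρ < 1 ∧ ∀ p : ℂ × ℂ, f p ≤ -δ → ‖p.1‖ ≤ ρ ∧ ‖p.2‖ ≤ ρ

/-! ## Block I: integration by parts -/

/-- I1. Pointwise facts. -/
def Stmt_I1 : Prop :=
  (∀ (φ α β : ℂ × ℂ → ℝ) (p : ℂ × ℂ), LPos φ p →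
      0 ≤ bB φ α α p ∧ bB φ α β p ^ 2 ≤ bB φ α α p * bB φ β β p) ∧
  (∀ (f g : ℂ × ℂ → ℝ) (p : ℂ × ℂ), LPos f p → LPos g p → 0 ≤ mM f g p)

/-- I2. Integration by parts. -/
def Stmt_I2 : Prop :=
  ∀ (f φ u : ℂ × ℂ → ℝ), ContDiff ℝ ∞ f → ContDiff ℝ ∞ φ → ContDiff ℝ ∞ u →
    HasCompactSupport u →
    (∫ p, u p * mM f φ p = - ∫ p, bB φ u f p) ∧ (∫ p, u p * mM f φ p = ∫ p, f p * mM u φ p)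

/-- I3. The energy chain. -/
def Stmt_I3 : Prop :=
  ∀ (δ : ℝ) (c : ℝ → ℝ) (f g φ : ℂ × ℂ → ℝ), 0 < δ → IsCut δ c → SPsh f → SPsh g → SPsh φ →
    Lev δ f → Lev δ g → (∀ p ∈ Bidisc, g p ≤ f p) → (∀ p ∈ Bidisc, f p ≤ 0) →
    (∀ p ∈ Bidisc, φ p ≤ 0) →
    ∫ p, bB φ (eta c δ f) (eta c δ f) p ≤ 6 * ∫ p in {p | g p ≤ -δ}, (-φ p) * dH g p

/-- I4. The lower bound identity. -/
def Stmt_I4 : Prop :=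
  ∀ (f : ℂ × ℂ → ℝ) (χ b : ℂ → ℝ), ContDiff ℝ ∞ f → ContDiff ℝ ∞ χ → HasCompactSupport χ →
    ContDiff ℝ ∞ b → HasCompactSupport b → (∀ z, 0 ≤ χ z) → (∀ w, 0 ≤ b w) →
    2 * ∫ p : ℂ × ℂ, χ p.1 * b p.2 * dH f p ≤
      (∫ p : ℂ × ℂ, χ p.1 * |bB f (fun q => b q.2) f p|)
      + (∫ p : ℂ × ℂ, b p.2 * |hzz (fun q => χ q.1) p| * gw f p)
      + ∫ p : ℂ × ℂ, Real.sqrt (gz (fun q => χ q.1) p) * Real.sqrt (gw (fun q => b q.2) p)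
          * Real.sqrt (gz f p) * Real.sqrt (gw f p)

/-! ## Block T: toolkit -/

/-- T1. Cut-off functions and regularised maximum. -/
def Stmt_T1 : Prop :=
  (∀ δ : ℝ, 0 < δ → ∃ c, IsCut δ c) ∧
  (∀ δ : ℝ, 0 < δ → ∃ m : ℝ → ℝ, ContDiff ℝ ∞ m ∧ (∀ x, x ≤ -δ → m x = 0) ∧
    (∀ x, δ ≤ x → m x = x) ∧ (∀ x, 0 ≤ deriv m x) ∧ (∀ x, deriv m x ≤ 1) ∧
    (∀ x, 0 ≤ deriv (deriv m) x) ∧ (∀ x, max x 0 ≤ m x) ∧ (∀ x, m x ≤ max x 0 + δ))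

/-- T2. Local psh-ness of `f + m(g - f)`. -/
def Stmt_T2 : Prop :=
  ∀ (m : ℝ → ℝ) (f g : ℂ × ℂ → ℝ) (p : ℂ × ℂ), ContDiff ℝ ∞ m → (∀ x, 0 ≤ deriv m x) →
    (∀ x, deriv m x ≤ 1) → (∀ x, 0 ≤ deriv (deriv m) x) →
    ContDiffAt ℝ ∞ f p → ContDiffAt ℝ ∞ g p → LPos f p → LPos g p →
    LPos (fun q => f q + m (g q - f q)) p

/-- T3. Standard psh functions. -/
def Stmt_T3 : Prop :=
  (∀ r : ℝ, 0 < r → SPsh (fun p : ℂ × ℂ => Real.log (‖p.2‖ ^ 2 + r ^ 2) / 2) ∧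
    ∀ p : ℂ × ℂ, hww (fun p : ℂ × ℂ => Real.log (‖p.2‖ ^ 2 + r ^ 2) / 2) p
        = r ^ 2 / (2 * (‖p.2‖ ^ 2 + r ^ 2) ^ 2) ∧
      hzz (fun p : ℂ × ℂ => Real.log (‖p.2‖ ^ 2 + r ^ 2) / 2) p = 0 ∧
      hP (fun p : ℂ × ℂ => Real.log (‖p.2‖ ^ 2 + r ^ 2) / 2) p = 0 ∧
      hQ (fun p : ℂ × ℂ => Real.log (‖p.2‖ ^ 2 + r ^ 2) / 2) p = 0) ∧
  (SPsh (fun p : ℂ × ℂ => ‖p.1‖ ^ 2 - 1) ∧ SPsh (fun p : ℂ × ℂ => ‖p.2‖ ^ 2 - 1) ∧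
    ∀ p : ℂ × ℂ, hzz (fun p : ℂ × ℂ => ‖p.1‖ ^ 2 - 1) p = 1 ∧
      hww (fun p : ℂ × ℂ => ‖p.1‖ ^ 2 - 1) p = 0 ∧
      hP (fun p : ℂ × ℂ => ‖p.1‖ ^ 2 - 1) p = 0 ∧ hQ (fun p : ℂ × ℂ => ‖p.1‖ ^ 2 - 1) p = 0) ∧
  (∀ (N : ℕ) (F : Fin N → ℂ × ℂ → ℂ) (ε s : ℝ), 0 < ε → 0 ≤ s → (∀ j, ContDiff ℂ ∞ (F j)) →
    SPsh (fun p => s * Real.log (ε + ∑ j, ‖F j p‖ ^ 2)))

/-! ## Block E: the extension lemma -/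

/-- A. Finite-dimensional Szego-Masani inequality: near-optimal analytic matrix polynomials. -/
def Stmt_A : Prop :=
  ∀ (N : ℕ) (W : ℝ → Matrix (Fin N) (Fin N) ℂ), Continuous W →
    (∀ θ, W (θ + 2 * Real.pi) = W θ) → (∀ θ, (W θ).PosDef) → ∀ ε : ℝ, 0 < ε →
    ∃ (d : ℕ) (E : Fin (d + 1) → Matrix (Fin N) (Fin N) ℂ),
      (∀ a : Fin N → ℂ,
        (∫ θ in (0 : ℝ)..(2 * Real.pi),
          (star ((∑ k : Fin (d + 1), Complex.exp (((k : ℕ) : ℂ) * (θ : ℂ) * Complex.I) • E k).mulVec a) ⬝ᵥ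
            (W θ).mulVec ((∑ k : Fin (d + 1), Complex.exp (((k : ℕ) : ℂ) * (θ : ℂ) * Complex.I) • E k).mulVec a)).re)
          ≤ 2 * Real.pi * ∑ i, ‖a i‖ ^ 2) ∧
      Real.exp (-(∫ θ in (0 : ℝ)..(2 * Real.pi), Real.log (W θ).det.re) / (2 * Real.pi) - ε)
        ≤ ‖(E 0).det‖ ^ 2

/-- The Dirichlet energy `∫ |∇h|²` of a function on `ℂ`. -/
noncomputable def dirE (h : ℂ → ℝ) : ℝ := ∫ z, (fderiv ℝ h z 1) ^ 2 + (fderiv ℝ h z Complex.I) ^ 2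

/-- B1. Coulomb energy inequality. -/
def Stmt_B1 : Prop :=
  ∃ C : ℝ, 0 ≤ C ∧ ∀ (h : ℂ → ℝ) (Λ : ℝ) (n N : ℕ) (z : Fin N → ℂ),
    ContDiff ℝ ∞ h → (∀ z, 1 ≤ ‖z‖ → h z = 0) → (∀ z w, |h z - h w| ≤ Λ * ‖z - w‖) → 0 ≤ Λ →
    1 ≤ n → (∀ i, ‖z i‖ ≤ 2) → Function.Injective z →
    2 * n * ∑ i, h (z i) + ∑ i, ∑ k ∈ Finset.univ.filter (fun k => i < k), Real.log ‖z i - z k‖
      ≤ C * N ^ 2 + C * n ^ 2 * dirE h + C * N * (1 + Real.log n + Λ)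

/-- The weighted Gram matrix of `1, z, ..., z^{N-1}` on the disc of radius `2`. -/
noncomputable def gram (N n : ℕ) (h : ℂ → ℝ) : Matrix (Fin N) (Fin N) ℂ :=
  fun i j => ∫ z in Metric.closedBall (0 : ℂ) 2,
    (starRingEnd ℂ z) ^ (i : ℕ) * z ^ (j : ℕ) * (Real.exp (2 * n * h z) : ℂ)

/-- B2. The determinant bound. -/
def Stmt_B2 : Prop :=
  (∀ (h : ℂ → ℝ) (n N : ℕ), Continuous h → (gram N n h).PosDef) ∧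
  ∃ C : ℝ, 0 ≤ C ∧ ∀ (h : ℂ → ℝ) (Λ : ℝ) (n N : ℕ),
    ContDiff ℝ ∞ h → (∀ z, 1 ≤ ‖z‖ → h z = 0) → (∀ z w, |h z - h w| ≤ Λ * ‖z - w‖) → 0 ≤ Λ →
    1 ≤ n →
    Real.log (gram N n h).det.re
      ≤ C * N ^ 2 + C * n ^ 2 * dirE h + C * N * (1 + Real.log n + Λ)

/-- B3. Hadamard's inequality at roots of unity. -/
def Stmt_B3 : Prop :=
  ∃ C : ℝ, 0 ≤ C ∧ ∀ (N : ℕ) (E : Matrix (Fin N) (Fin N) ℂ) (ε : ℝ), 1 ≤ N → E.det ≠ 0 →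
    0 < ε →
    Real.pi / N * Real.log (‖E.det‖ ^ 2) - C * N ≤
      ∫ z in Metric.ball (0 : ℂ) 1,
        Real.log (ε + ∑ j : Fin N, ‖∑ k : Fin N, z ^ (k : ℕ) * E k j‖ ^ 2)

/-- B4. Pointwise bound of polynomials with weighted `L²` norm at most `1` on `|w| = r`. -/
def Stmt_B4 : Prop :=
  ∀ (u : ℂ × ℂ → ℝ) (r δ : ℝ), ContDiff ℝ ∞ u → (∀ p, 0 ≤ u p) → 0 < r → r < 1 → 0 < δ →
    ∃ s : ℝ, r / 2 < s ∧ s < r ∧ ∃ n₀ : ℕ, ∀ n : ℕ, n₀ ≤ n → ∀ F : ℂ × ℂ → ℂ,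
      ContDiff ℂ ∞ F →
      (∫ θ in (0 : ℝ)..(2 * Real.pi), ∫ z in Metric.closedBall (0 : ℂ) 2,
        ‖F (z, r * Complex.exp (θ * Complex.I))‖ ^ 2 *
          Real.exp (2 * n * u (z, r * Complex.exp (θ * Complex.I)))) ≤ 2 * Real.pi →
      (∀ z w : ℂ, ‖z‖ ≤ 1 → ‖w‖ ≤ s → ‖F (z, w)‖ ^ 2 ≤ Real.exp (2 * n * δ)) ∧
      (∀ z w : ℂ, ‖z‖ ≤ 1 → ‖w‖ = s → ‖F (z, w)‖ ^ 2 ≤ Real.exp (2 * n * (δ - u (z, w))))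

/-- E. The extension lemma (assembled from A, B1-B4, T3). -/
def Stmt_E : Prop :=
  ∃ C : ℝ, 0 ≤ C ∧ ∀ (u : ℂ × ℂ → ℝ) (r δ : ℝ), ContDiff ℝ ∞ u → (∀ p, 0 ≤ u p) →
    (∀ p, u p ≠ 0 → p ∈ Bidisc) → HasCompactSupport u → 0 < r → r < 1 → 0 < δ →
    ∃ (ψ : ℂ × ℂ → ℝ) (s : ℝ), SPsh ψ ∧ 0 < s ∧ s < r ∧
      (∀ p : ℂ × ℂ, ‖p.1‖ ≤ 1 → ‖p.2‖ ≤ s → ψ p ≤ δ) ∧
      (∀ p : ℂ × ℂ, ‖p.1‖ ≤ 1 → ‖p.2‖ = s → ψ p ≤ δ - u p) ∧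
      -(∫ z in Metric.ball (0 : ℂ) 1, ψ (z, 0)) ≤
        C * (1 + Real.sqrt (∫ θ in (0 : ℝ)..(2 * Real.pi), ∫ z,
          gz u (z, r * Complex.exp (θ * Complex.I))))

/-! ## Blocks N, V: vertical energy -/

/-- Admissible functions. -/
structure Adm (δ M : ℝ) (f : ℂ × ℂ → ℝ) : Prop where
  spsh : SPsh f
  nonpos : ∀ p ∈ Bidisc, f p ≤ 0
  level : Lev δ f
  mass : ∫ p in {p | f p ≤ -δ}, dH f p ≤ M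
  deep : ∀ p : ℂ × ℂ, ‖p.1‖ ≤ 3 / 4 → ‖p.2‖ ≤ 3 / 4 → f p ≤ -4 * δ

/-- The closed polydisc with radii `a, b`. -/
def PD (a b : ℝ) : Set (ℂ × ℂ) := {p | ‖p.1‖ ≤ a ∧ ‖p.2‖ ≤ b}

/-- N. No concentration of the vertical energy (a statement about families of smooth functions,
subharmonic in `w`). -/
def Stmt_N : Prop :=
  ∀ (S : Set (ℂ × ℂ → ℝ)) (C : ℝ), S.Nonempty →
    (∀ f ∈ S, ContDiff ℝ ∞ f ∧ (∀ p, 0 ≤ hww f p) ∧ (∀ p ∈ PD (3 / 4) (3 / 4), f p ≤ 0) ∧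
      ∫ p in PD (3 / 4) (3 / 4), f p ^ 2 ≤ C ∧ ∫ p in PD (3 / 4) (3 / 4), gw f p ≤ C) →
    ∀ ε : ℝ, 0 < ε → ∃ f₀ ∈ S, ∀ g ∈ S, (∀ p ∈ PD (3 / 4) (3 / 4), g p ≤ f₀ p) →
      ∫ p in PD (1 / 2) (1 / 2), gw (fun q => f₀ q - g q) p ≤ ε

/-- Mean of `f` over the annulus `2^{-k} ≤ |w| ≤ 2^{1-k}`, `|z| ≤ 1/2` (up to a constant). -/
noncomputable def annMean (k : ℕ) (f : ℂ × ℂ → ℝ) : ℝ :=
  4 ^ k * ∫ p in {p : ℂ × ℂ | ‖p.1‖ ≤ 1 / 2 ∧ (1 / 2) ^ k ≤ ‖p.2‖ ∧ ‖p.2‖ ≤ 2 * (1 / 2) ^ k}, f p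

/-- V. Growth of the means in terms of the vertical energy. -/
def Stmt_V : Prop :=
  (∃ C : ℝ, 0 ≤ C ∧ ∀ (f : ℂ × ℂ → ℝ) (k l : ℕ), ContDiff ℝ ∞ f → k ≤ l →
    annMean l f ≤ annMean k f +
      C * Real.sqrt (l - k) * Real.sqrt (∫ p in PD (1 / 2) (2 * (1 / 2) ^ k), gw f p)) ∧
  (∃ C : ℝ, 0 ≤ C ∧ ∀ f : ℂ × ℂ → ℝ, ContDiff ℝ ∞ f → HasCompactSupport f →
    (∀ p, f p ≠ 0 → p ∈ Bidisc) → ∫ p, f p ^ 2 ≤ C * ∫ p, gw f p)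

/-! ## Main statement and reduction -/

/-- The main statement. -/
def Stmt_Main : Prop :=
  ∀ (δ M κ : ℝ) (S : Set (ℂ × ℂ → ℝ)), 0 < δ → 0 < M → 0 < κ → S.Nonempty →
    (∀ f ∈ S, Adm δ M f) →
    (∀ f ∈ S, ∀ θ : ℂ × ℂ → ℝ, Continuous θ → HasCompactSupport θ → tsupport θ ⊆ Bidisc →
      ∀ ε : ℝ, 0 < ε → ∃ g ∈ S, (∀ p ∈ Bidisc, g p ≤ f p) ∧
        |(∫ p, θ p * dH g p) - κ * ∫ z in Metric.ball (0 : ℂ) 1, θ (z, 0)| ≤ ε) →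
    False

/-- C. Extraction of an admissible family. -/
def Stmt_C : Prop := Stmt_Main → ¬ ∃ u : ℂ × ℂ → EReal, InFWithMA u lebDirac

/-- C1. Strong maximum principle. -/
def Stmt_C1 : Prop :=
  ∀ u : ℂ × ℂ → EReal, NegPSH u → (∃ p ∈ Bidisc, u p < 0) → ∀ p ∈ Bidisc, u p < 0

end CMA
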